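import Pool.Agent.Helper72.CO.Defs2

/-!
# The integral lemma
-/

set_option autoImplicit false

open MeasureTheory Set Filter Topology Metric Complex Polynomial

namespace Pool.Agent.Helper64.CO

open Pool.Agent.Helper523.LL (dbar)

/-! ### dbar calculus -/

theorem dbar_congr {f g : ℂ → ℂ} {z : ℂ} (h : f =ᶠ[𝓝 z] g) : dbar f z = dbar g z := by
  unfold dbar
  rw [h.fderiv_eq]

theorem dbar_mul {f g : ℂ → ℂ} {z : ℂ} (hf : DifferentiableAt ℝ f z) (hg : DifferentiableAt ℝ g z) :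
    dbar (fun w => f w * g w) z = f z * dbar g z + g z * dbar f z := by
  unfold dbar
  have h : fderiv ℝ (fun w => f w * g w) z = f z • fderiv ℝ g z + g z • fderiv ℝ f z :=
    (hf.hasFDerivAt.mul hg.hasFDerivAt).fderiv
  rw [h]
  simp only [_root_.add_apply, _root_.smul_apply, smul_eq_mul]
  ring

theorem dbar_holo {h : ℂ → ℂ} {z : ℂ} (hh : DifferentiableAt ℂ h z) : dbar h z = 0 := by
  unfold dbar
  have h1 : fderiv ℝ h z = (fderiv ℂ h z).restrictScalars ℝ :=
    (hh.hasFDerivAt.restrictScalars ℝ).fderiv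
  rw [h1]
  simp only [ContinuousLinearMap.coe_restrictScalars']
  have h2 : fderiv ℂ h z I = I * fderiv ℂ h z 1 := by
    have := (fderiv ℂ h z).map_smul I 1
    simp
  rw [h2, ← mul_assoc, I_mul_I]
  ring

theorem dbar_const {c : ℂ} {z : ℂ} : dbar (fun _ => c) z = 0 := by
  unfold dbar
  simp

theorem dbar_continuous {f : ℂ → ℂ} (hf : ContDiff ℝ 1 f) : Continuous (dbar f) := by
  unfold dbar
  have h3 : Continuous (fderiv ℝ f) := hf.continuous_fderiv (by norm_num)
  exact continuous_const.mul ((h3.clm_apply continuous_const).add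
    (continuous_const.mul (h3.clm_apply continuous_const)))

/-- chain rule for a real function -/
theorem dbar_comp_real {η : ℝ → ℝ} {Q : ℂ → ℝ} {z : ℂ} {η' : ℝ} (hη : HasDerivAt η η' (Q z))
    (hQ : DifferentiableAt ℝ Q z) :
    dbar (fun w => ((η (Q w) : ℝ) : ℂ)) z = (η' : ℂ) * dbar (fun w => ((Q w : ℝ) : ℂ)) z := by
  have h1 : HasFDerivAt (fun w => ((Q w : ℝ) : ℂ)) (Complex.ofRealCLM.comp (fderiv ℝ Q z)) z :=
    Complex.ofRealCLM.hasFDerivAt.comp z hQ.hasFDerivAt
  have h2 : HasFDerivAt (fun w => ((η (Q w) : ℝ) : ℂ))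
      (Complex.ofRealCLM.comp (η' • fderiv ℝ Q z)) z :=
    Complex.ofRealCLM.hasFDerivAt.comp z (hη.comp_hasFDerivAt z hQ.hasFDerivAt)
  unfold dbar
  rw [h1.fderiv, h2.fderiv]
  simp only [ContinuousLinearMap.comp_apply, _root_.smul_apply, Complex.ofRealCLM_apply,
    smul_eq_mul]
  push_cast
  ring

theorem integral_dbar {ψ : ℂ → ℂ} (hψ : ContDiff ℝ 1 ψ) (hs : HasCompactSupport ψ) :
    ∫ z, dbar ψ z = 0 := by
  have h1 : ContDiff ℝ 1 (fun z => z * ψ z) := contDiff_id.mul hψ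
  have h2 : HasCompactSupport (fun z => z * ψ z) := hs.mul_left
  have h3 := Pool.Agent.Helper523.LL.pompeiu_zero h1 h2
  have h4 : ∫ z, dbar ψ z = ∫ z, dbar (fun z => z * ψ z) z * z⁻¹ := by
    apply integral_congr_ae
    have h5 : ∀ᵐ z : ℂ ∂volume, z ≠ 0 := by
      have : (volume : Measure ℂ) {z | ¬ z ≠ 0} = 0 := by
        have h6 : {z : ℂ | ¬ z ≠ 0} = {0} := by ext; simp
        rw [h6]; exact measure_singleton _
      exact this
    filter_upwards [h5] with z hz
    have h7 : dbar (fun z => z * ψ z) z = z * dbar ψ z := by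
      rw [dbar_mul (f := fun w => w) (g := ψ) (differentiableAt_id) ((hψ.differentiable (by norm_num)) z),
        dbar_holo (h := fun w => w) differentiableAt_id]
      ring
    rw [h7]
    field_simp
  rw [h4, h3]
  simp

/-! ### the step function -/

theorem exists_eta : ∃ η : ℝ → ℝ, ContDiff ℝ 1 η ∧ (∀ t ≤ 0, η t = 0) ∧ (∀ t, 1 ≤ t → η t = 1) ∧
    (∀ t, 0 ≤ deriv η t) ∧ (∀ t, 0 < t → t < 1 → 0 < deriv η t) := by
  set g : ℝ → ℝ := fun x => 6 * max 0 (x * (1 - x)) with hg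
  have hgc : Continuous g := by rw [hg]; fun_prop
  set η : ℝ → ℝ := fun t => ∫ x in (0:ℝ)..t, g x with hη
  have hd : ∀ t, HasDerivAt η (g t) t := fun t =>
    (hgc.integral_hasStrictDerivAt 0 t).hasDerivAt
  have hde : deriv η = g := funext fun t => (hd t).deriv
  have hg0 : ∀ x ≤ 0, g x = 0 := by
    intro x hx
    simp only [hg]
    rw [max_eq_left (by nlinarith)]; ring
  have hg1 : ∀ x, 1 ≤ x → g x = 0 := by
    intro x hx
    simp only [hg]
    rw [max_eq_left (by nlinarith)]; ring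
  have h01 : ∫ x in (0:ℝ)..1, g x = 1 := by
    have : ∫ x in (0:ℝ)..1, g x = ∫ x in (0:ℝ)..1, (6 * x - 6 * x ^ 2) := by
      apply intervalIntegral.integral_congr
      intro x hx
      rw [uIcc_of_le zero_le_one] at hx
      simp only [hg]
      rw [max_eq_right (mul_nonneg hx.1 (by linarith [hx.2]))]
      ring
    rw [this, intervalIntegral.integral_sub (Continuous.intervalIntegrable (by fun_prop) _ _)
      (Continuous.intervalIntegrable (by fun_prop) _ _)]
    rw [intervalIntegral.integral_const_mul, intervalIntegral.integral_const_mul, integral_id,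
      integral_pow]
    norm_num
  refine ⟨η, ?_, ?_, ?_, ?_, ?_⟩
  · rw [contDiff_one_iff_deriv]
    exact ⟨fun t => (hd t).differentiableAt, by rw [hde]; exact hgc⟩
  · intro t ht
    simp only [hη]
    have : ∫ x in (0:ℝ)..t, g x = ∫ x in (0:ℝ)..t, (0:ℝ) := by
      apply intervalIntegral.integral_congr
      intro x hx
      rw [uIcc_of_ge ht] at hx
      exact hg0 x hx.2
    rw [this]; simp
  · intro t ht
    simp only [hη]
    have h2 : ∫ x in (1:ℝ)..t, g x = 0 := by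
      have : ∫ x in (1:ℝ)..t, g x = ∫ x in (1:ℝ)..t, (0:ℝ) := by
        apply intervalIntegral.integral_congr
        intro x hx
        rw [uIcc_of_le ht] at hx
        exact hg1 x hx.1
      rw [this]; simp
    rw [← intervalIntegral.integral_add_adjacent_intervals (hgc.intervalIntegrable 0 1)
      (hgc.intervalIntegrable 1 t), h01, h2, add_zero]
  · intro t
    rw [hde]
    simp only [hg]
    positivity
  · intro t h0 h1
    rw [hde]
    simp only [hg]
    have : 0 < t * (1 - t) := mul_pos h0 (by linarith)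
    rw [max_eq_right this.le]
    linarith

/-! ### the cut-off function -/

theorem exists_chi {η : ℝ → ℝ} (hη : ContDiff ℝ 1 η) (hη0 : ∀ t ≤ 0, η t = 0)
    (hη1 : ∀ t, 1 ≤ t → η t = 1) {P : ℂ → ℝ} (hP : ContDiff ℝ 1 P) {Γ Ω : Set ℂ}
    (hΓ : IsCompact Γ) (hΩ : IsOpen Ω) (hcl : closure Ω = Ω ∪ Γ)
    {s : ℝ} (hs : s = 1 ∨ s = -1) (hloc : ∀ ζ ∈ Γ, ∀ᶠ z in 𝓝 ζ, (P z = 0 → z ∈ Γ) ∧
        (0 < s * P z → z ∈ Ω) ∧ (s * P z < 0 → z ∉ closure Ω)) (N : Set ℂ)
    (hN : ∀ ζ ∈ Γ, N ∈ 𝓝 ζ) :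
    ∃ (χ : ℂ → ℝ) (K T : Set ℂ) (ε : ℝ), ContDiff ℝ 1 χ ∧ IsCompact K ∧ K ⊆ N ∧ IsOpen T ∧ T ⊆ K ∧
      Γ ⊆ T ∧ 0 < ε ∧ (∀ z ∈ T, χ z = η (s * P z / ε)) ∧
      (∀ z ∈ T, (P z = 0 → z ∈ Γ) ∧ (0 < s * P z → z ∈ Ω) ∧ (s * P z < 0 → z ∉ closure Ω)) ∧
      ∀ z, z ∉ T → (z ∈ Ω ∧ χ =ᶠ[𝓝 z] fun _ => 1) ∨ (z ∉ closure Ω ∧ χ =ᶠ[𝓝 z] fun _ => 0) := by
  classical
  set M : Set ℂ := {z | z ∈ N ∧ (P z = 0 → z ∈ Γ) ∧
        (0 < s * P z → z ∈ Ω) ∧ (s * P z < 0 → z ∉ closure Ω)} with hM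
  have hMn : ∀ ζ ∈ Γ, M ∈ 𝓝 ζ := by
    intro ζ hζ
    filter_upwards [hN ζ hζ, hloc ζ hζ] with z h1 h2
    exact ⟨h1, h2⟩
  have hΓM : Γ ⊆ interior M := fun ζ hζ => mem_interior_iff_mem_nhds.2 (hMn ζ hζ)
  obtain ⟨δ, hδ, hδM⟩ := hΓ.exists_cthickening_subset_open isOpen_interior hΓM
  set K : Set ℂ := cthickening δ Γ with hK
  have hKc : IsCompact K := hΓ.cthickening
  have hKM : K ⊆ M := hδM.trans interior_subset
  set K' : Set ℂ := K \ thickening (δ / 2) Γ with hK'
  have hK'c : IsCompact K' := hKc.diff isOpen_thickening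
  have hPc : Continuous P := hP.continuous
  obtain ⟨ε, hε, hεK⟩ : ∃ ε : ℝ, 0 < ε ∧ ∀ z ∈ K', ε ≤ |P z| := by
    rcases K'.eq_empty_or_nonempty with h0 | h0
    · exact ⟨1, one_pos, by rw [h0]; simp⟩
    · obtain ⟨z0, hz0, hmin⟩ := hK'c.exists_isMinOn h0 (hPc.abs.continuousOn)
      refine ⟨|P z0|, ?_, fun z hz => hmin hz⟩
      rw [abs_pos]
      intro h
      have h1 := (hKM hz0.1).2.1 h
      exact hz0.2 (self_subset_thickening (by linarith) _ h1)
  set χ : ℂ → ℝ := fun z => if z ∈ K then η (s * P z / ε) else if z ∈ Ω then 1 else 0 with hχ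
  -- away from the half thickening the function is the indicator
  have hind : ∀ z, z ∉ thickening (δ / 2) Γ → χ z = if z ∈ Ω then 1 else 0 := by
    intro z hz
    by_cases hzK : z ∈ K
    · have h1 : χ z = η (s * P z / ε) := by simp only [hχ]; rw [if_pos hzK]
      have h2 := hεK z ⟨hzK, hz⟩
      have h3 : |s * P z| = |P z| := by
        rcases hs with h | h <;> rw [h] <;> simp
      rw [← h3] at h2
      rcases le_or_gt 0 (s * P z) with h4 | h4
      · rw [abs_of_nonneg h4] at h2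
        have h5 : z ∈ Ω := (hKM hzK).2.2.1 (by linarith)
        rw [h1, if_pos h5]
        exact hη1 _ (by rw [le_div_iff₀ hε]; linarith)
      · have h5 : z ∉ closure Ω := (hKM hzK).2.2.2 h4
        rw [h1, if_neg (fun h => h5 (subset_closure h))]
        exact hη0 _ (div_nonpos_of_nonpos_of_nonneg h4.le hε.le)
    · simp only [hχ]; rw [if_neg hzK]
  have hT : thickening δ Γ ⊆ K := thickening_subset_cthickening _ _
  have hloc2 : ∀ z, z ∉ thickening δ Γ →
      (z ∈ Ω ∧ χ =ᶠ[𝓝 z] fun _ => 1) ∨ (z ∉ closure Ω ∧ χ =ᶠ[𝓝 z] fun _ => 0) := by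
    intro z hz
    have h1 : z ∉ cthickening (δ / 2) Γ := fun h =>
      hz (cthickening_subset_thickening' hδ (by linarith) _ h)
    have h2 : (cthickening (δ / 2) Γ)ᶜ ∈ 𝓝 z := isClosed_cthickening.isOpen_compl.mem_nhds h1
    have h3 : z ∉ Γ := fun h => hz (self_subset_thickening hδ _ h)
    by_cases h4 : z ∈ Ω
    · left
      refine ⟨h4, ?_⟩
      filter_upwards [h2, hΩ.mem_nhds h4] with w hw1 hw2
      rw [hind w (fun h => hw1 (thickening_subset_cthickening _ _ h)), if_pos hw2]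
    · right
      have h5 : z ∉ closure Ω := by
        rw [hcl]; rintro (h | h)
        · exact h4 h
        · exact h3 h
      refine ⟨h5, ?_⟩
      filter_upwards [h2, isClosed_closure.isOpen_compl.mem_nhds h5] with w hw1 hw2
      rw [hind w (fun h => hw1 (thickening_subset_cthickening _ _ h)),
        if_neg (fun h => hw2 (subset_closure h))]
  have hTeq : ∀ z ∈ thickening δ Γ, χ z = η (s * P z / ε) := by
    intro z hz
    simp only [hχ]; rw [if_pos (hT hz)]
  refine ⟨χ, K, thickening δ Γ, ε, ?_, hKc, fun z hz => (hKM hz).1, isOpen_thickening, hT,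
    self_subset_thickening hδ _, hε, hTeq, fun z hz => (hKM (hT hz)).2, hloc2⟩
  rw [contDiff_iff_contDiffAt]
  intro z
  by_cases hz : z ∈ thickening δ Γ
  · have h1 : χ =ᶠ[𝓝 z] fun w => η (s * P w / ε) := by
      filter_upwards [isOpen_thickening.mem_nhds hz] with w hw
      exact hTeq w hw
    have h2 : ContDiffAt ℝ 1 (fun w => η (s * P w / ε)) z := by
      have : ContDiff ℝ 1 (fun w => η (s * P w / ε)) :=
        hη.comp ((contDiff_const.mul hP).div_const ε)
      exact this.contDiffAt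
    exact h2.congr_of_eventuallyEq h1
  · rcases hloc2 z hz with ⟨_, h⟩ | ⟨_, h⟩
    · exact contDiffAt_const.congr_of_eventuallyEq h
    · exact contDiffAt_const.congr_of_eventuallyEq h

theorem holo_contDiffAt {h : ℂ → ℂ} {D : Set ℂ} (hD : IsOpen D) (hh : DifferentiableOn ℂ h D) {z : ℂ}
    (hz : z ∈ D) : ContDiffAt ℝ 1 h z :=
  ((hh.analyticAt (hD.mem_nhds hz)).contDiffAt (n := 1)).restrict_scalars ℝ

section Main

variable {χ : ℂ → ℝ} {K T Ω V : Set ℂ}

theorem k_zero (hloc : ∀ z, z ∉ T →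
      (z ∈ Ω ∧ χ =ᶠ[𝓝 z] fun _ => 1) ∨ (z ∉ closure Ω ∧ χ =ᶠ[𝓝 z] fun _ => 0)) {z : ℂ} (hz : z ∉ T) :
    dbar (fun w => ((χ w : ℝ) : ℂ)) z = 0 := by
  rcases hloc z hz with ⟨_, h⟩ | ⟨_, h⟩
  · have : (fun w => ((χ w : ℝ) : ℂ)) =ᶠ[𝓝 z] fun _ => ((1 : ℝ) : ℂ) := by
      filter_upwards [h] with w hw
      rw [hw]
    rw [dbar_congr this, dbar_const]
  · have : (fun w => ((χ w : ℝ) : ℂ)) =ᶠ[𝓝 z] fun _ => ((0 : ℝ) : ℂ) := by
      filter_upwards [h] with w hw
      rw [hw]
    rw [dbar_congr this, dbar_const]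

theorem k_mul_continuous (hχ : ContDiff ℝ 1 χ) (hKc : IsCompact K) (hKV : K ⊆ V) (hV : IsOpen V)
    (hTK : T ⊆ K) (hloc : ∀ z, z ∉ T →
      (z ∈ Ω ∧ χ =ᶠ[𝓝 z] fun _ => 1) ∨ (z ∉ closure Ω ∧ χ =ᶠ[𝓝 z] fun _ => 0))
    {h : ℂ → ℂ} (hh : ContinuousOn h V) :
    Continuous (fun z => h z * dbar (fun w => ((χ w : ℝ) : ℂ)) z) ∧
      HasCompactSupport (fun z => h z * dbar (fun w => ((χ w : ℝ) : ℂ)) z) := by
  have hχc : ContDiff ℝ 1 (fun w => ((χ w : ℝ) : ℂ)) := Complex.ofRealCLM.contDiff.comp hχ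
  refine ⟨?_, ?_⟩
  · rw [continuous_iff_continuousAt]
    intro z
    by_cases hz : z ∈ V
    · exact (hh.continuousAt (hV.mem_nhds hz)).mul (dbar_continuous hχc).continuousAt
    · have hzK : z ∉ K := fun h => hz (hKV h)
      have h1 : (fun z => h z * dbar (fun w => ((χ w : ℝ) : ℂ)) z) =ᶠ[𝓝 z] fun _ => 0 := by
        filter_upwards [hKc.isClosed.isOpen_compl.mem_nhds hzK] with w hw
        rw [k_zero hloc (fun h => hw (hTK h)), mul_zero]
      exact continuousAt_const.congr h1.symm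
  · refine HasCompactSupport.intro hKc ?_
    intro z hz
    rw [k_zero hloc (fun h => hz (hTK h)), mul_zero]

theorem int_inside (hχ : ContDiff ℝ 1 χ) (hKc : IsCompact K) (hKV : K ⊆ V) (hV : IsOpen V)
    (hTK : T ⊆ K) (hloc : ∀ z, z ∉ T →
      (z ∈ Ω ∧ χ =ᶠ[𝓝 z] fun _ => 1) ∨ (z ∉ closure Ω ∧ χ =ᶠ[𝓝 z] fun _ => 0))
    (hΩ : IsOpen Ω) (hb : Bornology.IsBounded Ω)
    {h : ℂ → ℂ} (hh : DifferentiableOn ℂ h (Ω ∪ V)) :
    ∫ z, h z * dbar (fun w => ((χ w : ℝ) : ℂ)) z = 0 := by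
  have hχc : ContDiff ℝ 1 (fun w => ((χ w : ℝ) : ℂ)) := Complex.ofRealCLM.contDiff.comp hχ
  have hD : IsOpen (Ω ∪ V) := hΩ.union hV
  have hout : ∀ z, z ∉ Ω ∪ V → (fun w => h w * ((χ w : ℝ) : ℂ)) =ᶠ[𝓝 z] fun _ => 0 := by
    intro z hz
    have hzT : z ∉ T := fun h => hz (Or.inr (hKV (hTK h)))
    rcases hloc z hzT with ⟨h1, _⟩ | ⟨_, h1⟩
    · exact absurd (Or.inl h1) hz
    · filter_upwards [h1] with w hw
      rw [hw]; simp
  have hψ : ContDiff ℝ 1 (fun w => h w * ((χ w : ℝ) : ℂ)) := by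
    rw [contDiff_iff_contDiffAt]
    intro z
    by_cases hz : z ∈ Ω ∪ V
    · exact (holo_contDiffAt hD hh hz).mul hχc.contDiffAt
    · exact contDiffAt_const.congr_of_eventuallyEq (hout z hz)
  have hcs : HasCompactSupport (fun w => h w * ((χ w : ℝ) : ℂ)) := by
    refine HasCompactSupport.intro (hKc.union hb.isCompact_closure) ?_
    intro z hz
    have hzT : z ∉ T := fun h => hz (Or.inl (hTK h))
    rcases hloc z hzT with ⟨h1, _⟩ | ⟨_, h1⟩
    · exact absurd (Or.inr (subset_closure h1)) hz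
    · rw [h1.self_of_nhds]; simp
  have heq : ∀ z, dbar (fun w => h w * ((χ w : ℝ) : ℂ)) z =
      h z * dbar (fun w => ((χ w : ℝ) : ℂ)) z := by
    intro z
    by_cases hz : z ∈ Ω ∪ V
    · have h1 : DifferentiableAt ℂ h z := hh.differentiableAt (hD.mem_nhds hz)
      rw [dbar_mul (h1.restrictScalars ℝ) ((hχc.differentiable (by norm_num)) z), dbar_holo h1]
      ring
    · have hzT : z ∉ T := fun h => hz (Or.inr (hKV (hTK h)))
      rw [dbar_congr (hout z hz), dbar_const, k_zero hloc hzT, mul_zero]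
  rw [← integral_congr_ae (Eventually.of_forall heq)]
  exact integral_dbar hψ hcs

theorem int_outside (hχ : ContDiff ℝ 1 χ) (hKc : IsCompact K) (hKV : K ⊆ V) (hV : IsOpen V)
    (hTK : T ⊆ K) (hloc : ∀ z, z ∉ T →
      (z ∈ Ω ∧ χ =ᶠ[𝓝 z] fun _ => 1) ∨ (z ∉ closure Ω ∧ χ =ᶠ[𝓝 z] fun _ => 0))
    (hb : Bornology.IsBounded Ω)
    {h : ℂ → ℂ} (hh : DifferentiableOn ℂ h ((closure Ω)ᶜ ∪ V)) {C R : ℝ}
    (hC : ∀ z, R ≤ ‖z‖ → ‖h z‖ ≤ C / ‖z‖ ^ 2) :
    ∫ z, h z * dbar (fun w => ((χ w : ℝ) : ℂ)) z = 0 := by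
  have hχc : ContDiff ℝ 1 (fun w => ((χ w : ℝ) : ℂ)) := Complex.ofRealCLM.contDiff.comp hχ
  have hD : IsOpen ((closure Ω)ᶜ ∪ V) := isClosed_closure.isOpen_compl.union hV
  obtain ⟨hkc, hks⟩ := k_mul_continuous hχ hKc hKV hV hTK hloc
    (hh.continuousOn.mono subset_union_right)
  have hki := hkc.integrable_of_hasCompactSupport (μ := volume) hks
  -- the bump
  let b : ContDiffBump (0 : ℂ) := ⟨1, 2, one_pos, one_lt_two⟩
  set θ : ℂ → ℂ := fun z => ((b z : ℝ) : ℂ) with hθ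
  have hθc : ContDiff ℝ 1 θ := Complex.ofRealCLM.contDiff.comp b.contDiff
  have hθ1 : ∀ z, ‖z‖ ≤ 1 → θ z = 1 := by
    intro z hz
    have : b z = 1 := b.one_of_mem_closedBall (by simpa [b] using hz)
    simp only [hθ, this]; simp
  have hθ0 : ∀ z, 2 ≤ ‖z‖ → θ z = 0 := by
    intro z hz
    have : b z = 0 := b.zero_of_le_dist (by simpa [b] using hz)
    simp only [hθ, this]; simp
  obtain ⟨M, hM⟩ : ∃ M, ∀ z, ‖dbar θ z‖ ≤ M := by
    have h1 : HasCompactSupport (dbar θ) := by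
      refine HasCompactSupport.intro (isCompact_closedBall (0:ℂ) 3) ?_
      intro z hz
      have h2 : θ =ᶠ[𝓝 z] fun _ => 0 := by
        have : (closedBall (0:ℂ) 3)ᶜ ∈ 𝓝 z := isClosed_closedBall.isOpen_compl.mem_nhds hz
        filter_upwards [this] with w hw
        apply hθ0
        have : ¬ ‖w‖ ≤ 3 := by simpa using hw
        linarith
      rw [dbar_congr h2, dbar_const]
    exact h1.exists_bound_of_continuous (dbar_continuous hθc)
  have hM0 : 0 ≤ M := (norm_nonneg _).trans (hM 0)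
  obtain ⟨R₀, hR₀⟩ := (hKc.isBounded.union hb.closure).subset_ball (0 : ℂ)
  -- the estimate
  have key : ∀ ρ : ℝ, max (max R R₀) 1 ≤ ρ →
      ‖∫ z, h z * dbar (fun w => ((χ w : ℝ) : ℂ)) z‖ ≤ (4 * Real.pi * |C| * M) / ρ := by
    intro ρ hρ
    have hρ1 : 1 ≤ ρ := (le_max_right _ _).trans hρ
    have hρR : R ≤ ρ := ((le_max_left _ _).trans (le_max_left _ _)).trans hρ
    have hρR₀ : R₀ ≤ ρ := ((le_max_right _ _).trans (le_max_left _ _)).trans hρ
    have hρ0 : 0 < ρ := by linarith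
    set θρ : ℂ → ℂ := fun z => θ (ρ⁻¹ • z) with hθρ
    have hθρc : ContDiff ℝ 1 θρ := hθc.comp (contDiff_const_smul ρ⁻¹)
    have hdθ : ∀ z, dbar θρ z = (ρ⁻¹ : ℝ) * dbar θ (ρ⁻¹ • z) := by
      intro z
      have h1 : HasFDerivAt (fun z : ℂ => ρ⁻¹ • z) (ρ⁻¹ • ContinuousLinearMap.id ℝ ℂ) z :=
        (hasFDerivAt_id z).const_smul ρ⁻¹
      have h2 : HasFDerivAt θρ ((fderiv ℝ θ (ρ⁻¹ • z)).comp (ρ⁻¹ • ContinuousLinearMap.id ℝ ℂ)) z :=
        ((hθc.differentiable (by norm_num)) _).hasFDerivAt.comp z h1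
      unfold dbar
      rw [h2.fderiv]
      have h3 : ∀ v : ℂ, ((fderiv ℝ θ (ρ⁻¹ • z)).comp (ρ⁻¹ • ContinuousLinearMap.id ℝ ℂ)) v =
          ((ρ⁻¹ : ℝ) : ℂ) * fderiv ℝ θ (ρ⁻¹ • z) v := by
        intro v
        rw [ContinuousLinearMap.comp_apply, _root_.smul_apply, ContinuousLinearMap.id_apply,
          map_smul, Complex.real_smul]
      rw [h3, h3]
      ring
    have hθρ1 : ∀ z, ‖z‖ ≤ ρ → θρ z = 1 := by
      intro z hz
      apply hθ1
      rw [norm_smul, Real.norm_of_nonneg (inv_nonneg.2 hρ0.le), inv_mul_le_iff₀ hρ0]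
      linarith
    have hθρ0 : ∀ z, 2 * ρ ≤ ‖z‖ → θρ z = 0 := by
      intro z hz
      apply hθ0
      rw [norm_smul, Real.norm_of_nonneg (inv_nonneg.2 hρ0.le), le_inv_mul_iff₀ hρ0]
      linarith
    have hθρd0 : ∀ z, ‖z‖ < ρ → dbar θρ z = 0 := by
      intro z hz
      have : θρ =ᶠ[𝓝 z] fun _ => 1 := by
        filter_upwards [isOpen_ball.mem_nhds (mem_ball_zero_iff.2 hz)] with w hw
        exact hθρ1 w (mem_ball_zero_iff.1 hw).le
      rw [dbar_congr this, dbar_const]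
    have hθρd1 : ∀ z, 2 * ρ < ‖z‖ → dbar θρ z = 0 := by
      intro z hz
      have : θρ =ᶠ[𝓝 z] fun _ => 0 := by
        have h1 : (closedBall (0:ℂ) (2 * ρ))ᶜ ∈ 𝓝 z :=
          isClosed_closedBall.isOpen_compl.mem_nhds (by simpa using hz)
        filter_upwards [h1] with w hw
        apply hθρ0
        have : ¬ ‖w‖ ≤ 2 * ρ := by simpa using hw
        linarith
      rw [dbar_congr this, dbar_const]
    -- far away
    have hfar : ∀ z, ρ ≤ ‖z‖ → z ∉ T ∧ z ∉ closure Ω := by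
      intro z hz
      have h1 : z ∉ K ∪ closure Ω := by
        intro h
        have := mem_ball_zero_iff.1 (hR₀ h)
        linarith
      exact ⟨fun h => h1 (Or.inl (hTK h)), fun h => h1 (Or.inr h)⟩
    have hχfar : ∀ z, ρ ≤ ‖z‖ → χ z = 0 := by
      intro z hz
      obtain ⟨h1, h2⟩ := hfar z hz
      rcases hloc z h1 with ⟨h3, _⟩ | ⟨_, h3⟩
      · exact absurd (subset_closure h3) h2
      · exact h3.self_of_nhds
    have hout : ∀ z, z ∉ (closure Ω)ᶜ ∪ V → z ∉ T ∧ χ =ᶠ[𝓝 z] fun _ => 1 := by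
      intro z hz
      have hzT : z ∉ T := fun h => hz (Or.inr (hKV (hTK h)))
      rcases hloc z hzT with ⟨h1, h2⟩ | ⟨h1, _⟩
      · exact ⟨hzT, h2⟩
      · exact absurd (Or.inl h1) hz
    set g : ℂ → ℂ := fun w => (1 - ((χ w : ℝ) : ℂ)) * θρ w with hg
    have hgc : ContDiff ℝ 1 g := (contDiff_const.sub hχc).mul hθρc
    have hout2 : ∀ z, z ∉ (closure Ω)ᶜ ∪ V → (fun w => h w * g w) =ᶠ[𝓝 z] fun _ => 0 := by
      intro z hz
      filter_upwards [(hout z hz).2] with w hw
      simp only [hg, hw]; simp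
    have hψ : ContDiff ℝ 1 (fun w => h w * g w) := by
      rw [contDiff_iff_contDiffAt]
      intro z
      by_cases hz : z ∈ (closure Ω)ᶜ ∪ V
      · exact (holo_contDiffAt hD hh hz).mul hgc.contDiffAt
      · exact contDiffAt_const.congr_of_eventuallyEq (hout2 z hz)
    have hcs : HasCompactSupport (fun w => h w * g w) := by
      refine HasCompactSupport.intro (isCompact_closedBall (0:ℂ) (2 * ρ)) ?_
      intro z hz
      have : ¬ ‖z‖ ≤ 2 * ρ := by simpa using hz
      simp only [hg]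
      rw [hθρ0 z (by linarith)]; simp
    have heq : ∀ z, dbar (fun w => h w * g w) z = h z * (1 - ((χ z : ℝ) : ℂ)) * dbar θρ z -
        h z * dbar (fun w => ((χ w : ℝ) : ℂ)) z := by
      intro z
      by_cases hz : z ∈ (closure Ω)ᶜ ∪ V
      · have h1 : DifferentiableAt ℂ h z := hh.differentiableAt (hD.mem_nhds hz)
        have h2 : dbar g z = (1 - ((χ z : ℝ) : ℂ)) * dbar θρ z -
            θρ z * dbar (fun w => ((χ w : ℝ) : ℂ)) z := by
          have h3 := dbar_mul (f := fun w => 1 - ((χ w : ℝ) : ℂ)) (g := θρ) (z := z)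
            (((contDiff_const.sub hχc).differentiable (by norm_num)) z)
            ((hθρc.differentiable (by norm_num)) z)
          simp only [hg]
          rw [h3]
          have h4 : dbar (fun w => 1 - ((χ w : ℝ) : ℂ)) z = - dbar (fun w => ((χ w : ℝ) : ℂ)) z := by
            unfold dbar
            rw [fderiv_const_sub]
            simp only [_root_.neg_apply]
            ring
          rw [h4]; ring
        have h5 : θρ z * dbar (fun w => ((χ w : ℝ) : ℂ)) z = dbar (fun w => ((χ w : ℝ) : ℂ)) z := by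
          by_cases hzT : z ∈ T
          · have : ‖z‖ < R₀ := mem_ball_zero_iff.1 (hR₀ (Or.inl (hTK hzT)))
            rw [hθρ1 z (by linarith), one_mul]
          · rw [k_zero hloc hzT, mul_zero]
        rw [dbar_mul (h1.restrictScalars ℝ) ((hgc.differentiable (by norm_num)) z), dbar_holo h1, h2,
          h5]
        ring
      · obtain ⟨h1, h2⟩ := hout z hz
        rw [dbar_congr (hout2 z hz), dbar_const, k_zero hloc h1, h2.self_of_nhds]
        simp
    have hI : ∫ z, dbar (fun w => h w * g w) z = 0 := integral_dbar hψ hcs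
    have hI2 : Integrable (dbar (fun w => h w * g w)) := by
      refine (dbar_continuous hψ).integrable_of_hasCompactSupport ?_
      refine HasCompactSupport.intro (isCompact_closedBall (0:ℂ) (2 * ρ)) ?_
      intro z hz
      have h2 : (fun w => h w * g w) =ᶠ[𝓝 z] fun _ => 0 := by
        have : (closedBall (0:ℂ) (2 * ρ))ᶜ ∈ 𝓝 z := isClosed_closedBall.isOpen_compl.mem_nhds hz
        filter_upwards [this] with w hw
        have : ¬ ‖w‖ ≤ 2 * ρ := by simpa using hw
        simp only [hg]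
        rw [hθρ0 w (by linarith)]; simp
      rw [dbar_congr h2, dbar_const]
    have hE : ∫ z, h z * dbar (fun w => ((χ w : ℝ) : ℂ)) z =
        ∫ z, h z * (1 - ((χ z : ℝ) : ℂ)) * dbar θρ z := by
      have h1 : (fun z => h z * (1 - ((χ z : ℝ) : ℂ)) * dbar θρ z) =
          fun z => dbar (fun w => h w * g w) z + h z * dbar (fun w => ((χ w : ℝ) : ℂ)) z := by
        funext z
        rw [heq z]; ring
      rw [h1, integral_add hI2 hki, hI, zero_add]
    rw [hE]
    have hbd : ∀ z, ‖h z * (1 - ((χ z : ℝ) : ℂ)) * dbar θρ z‖ ≤ |C| * M / ρ ^ 3 := by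
      intro z
      rcases lt_or_ge ‖z‖ ρ with hz | hz
      · rw [hθρd0 z hz, mul_zero, norm_zero]
        positivity
      · rw [hχfar z hz, hdθ z]
        have h1 : ‖h z‖ ≤ |C| / ρ ^ 2 := by
          refine (hC z (by linarith)).trans ?_
          have h2 : C / ‖z‖ ^ 2 ≤ |C| / ‖z‖ ^ 2 :=
            div_le_div_of_nonneg_right (le_abs_self C) (by positivity)
          refine h2.trans ?_
          exact div_le_div_of_nonneg_left (abs_nonneg C) (by positivity)
            (pow_le_pow_left₀ hρ0.le hz 2)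
        have h2 : ‖h z * (1 - ((0 : ℝ) : ℂ)) * (((ρ⁻¹ : ℝ) : ℂ) * dbar θ (ρ⁻¹ • z))‖ =
            ‖h z‖ * (ρ⁻¹ * ‖dbar θ (ρ⁻¹ • z)‖) := by
          rw [norm_mul, norm_mul, norm_mul, norm_real, Real.norm_of_nonneg (inv_nonneg.2 hρ0.le)]
          simp
        rw [h2]
        calc ‖h z‖ * (ρ⁻¹ * ‖dbar θ (ρ⁻¹ • z)‖) ≤ (|C| / ρ ^ 2) * (ρ⁻¹ * M) :=
              mul_le_mul h1 (mul_le_mul_of_nonneg_left (hM _) (inv_nonneg.2 hρ0.le))
                (by positivity) (by positivity)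
          _ = |C| * M / ρ ^ 3 := by field_simp
    have hsupp : ∫ z, h z * (1 - ((χ z : ℝ) : ℂ)) * dbar θρ z =
        ∫ z in closedBall (0:ℂ) (2 * ρ), h z * (1 - ((χ z : ℝ) : ℂ)) * dbar θρ z := by
      symm
      apply setIntegral_eq_integral_of_forall_compl_eq_zero
      intro z hz
      have : ¬ ‖z‖ ≤ 2 * ρ := by simpa using hz
      rw [hθρd1 z (by linarith), mul_zero]
    rw [hsupp]
    have hvol : volume (closedBall (0:ℂ) (2 * ρ)) < ⊤ := measure_closedBall_lt_top
    have h3 := norm_setIntegral_le_of_norm_le_const (μ := volume) hvol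
      (f := fun z => h z * (1 - ((χ z : ℝ) : ℂ)) * dbar θρ z) (C := |C| * M / ρ ^ 3)
      (fun z _ => hbd z)
    refine h3.trans ?_
    have h4 : volume.real (closedBall (0:ℂ) (2 * ρ)) = Real.pi * (2 * ρ) ^ 2 := by
      rw [Measure.real, Complex.volume_closedBall]
      rw [ENNReal.toReal_mul, ENNReal.toReal_pow, ENNReal.toReal_ofReal (by positivity)]
      simp [mul_comm]
    rw [h4]
    apply le_of_eq
    field_simp
    ring
  have htend : Tendsto (fun ρ : ℝ => (4 * Real.pi * |C| * M) / ρ) atTop (𝓝 0) :=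
    tendsto_const_nhds.div_atTop tendsto_id
  have h5 : ‖∫ z, h z * dbar (fun w => ((χ w : ℝ) : ℂ)) z‖ ≤ 0 :=
    ge_of_tendsto htend (by
      filter_upwards [eventually_ge_atTop (max (max R R₀) 1)] with ρ hρ
      exact key ρ hρ)
  exact norm_le_zero_iff.1 h5

end Main

theorem int : Pool.Agent.Helper72.CO.S_INT := by
  intro P hP Γ Ω V hΓ hΓne hPΓ hΩ hdis hb hcl s hs hloc hV hΓV u hu hu1
  obtain ⟨η, hη, hη0, hη1, hηd, hηp⟩ := exists_eta
  have hPc : ContDiff ℝ 1 (fun w => ((P w : ℝ) : ℂ)) := Complex.ofRealCLM.contDiff.comp hP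
  set N : Set ℂ := V ∩ {z | 1 / 2 < (u z * dbar (fun z => (P z : ℂ)) z).re} with hNdef
  have hN : ∀ ζ ∈ Γ, N ∈ 𝓝 ζ := by
    intro ζ hζ
    have hVn : V ∈ 𝓝 ζ := hV.mem_nhds (hΓV hζ)
    refine inter_mem hVn ?_
    have h1 : ContinuousAt (fun z => (u z * dbar (fun z => (P z : ℂ)) z).re) ζ :=
      Complex.continuous_re.continuousAt.comp
        ((hu.continuousAt hVn).mul (dbar_continuous hPc).continuousAt)
    apply h1.eventually_const_lt
    show 1 / 2 < (u ζ * dbar (fun z => (P z : ℂ)) ζ).re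
    rw [hu1 ζ hζ]; norm_num
  obtain ⟨χ, K, T, ε, hχ, hKc, hKN, hTo, hTK, hΓT, hε, hTχ, hTP, hlocχ⟩ :=
    exists_chi hη hη0 hη1 hP hΓ hΩ hcl hs hloc N hN
  have hKV : K ⊆ V := fun z hz => (hKN hz).1
  refine ⟨dbar (fun w => ((χ w : ℝ) : ℂ)), ?_, ?_, ?_, ?_, ?_⟩
  · intro h hh
    obtain ⟨h1, h2⟩ := k_mul_continuous hχ hKc hKV hV hTK hlocχ hh
    exact h1.integrable_of_hasCompactSupport h2
  · intro z hz
    by_contra hzV
    exact hz (k_zero hlocχ (fun h => hzV (hKV (hTK h))))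
  · intro h hh
    exact int_inside hχ hKc hKV hV hTK hlocχ hΩ hb hh
  · rintro h hh ⟨C, R, hC⟩
    exact int_outside hχ hKc hKV hV hTK hlocχ hb hh hC
  · -- positivity
    obtain ⟨hkc, hks⟩ := k_mul_continuous hχ hKc hKV hV hTK hlocχ hu
    have hki := hkc.integrable_of_hasCompactSupport (μ := volume) hks
    intro h0
    -- the formula for k
    have hk : ∀ z ∈ T, u z * dbar (fun w => ((χ w : ℝ) : ℂ)) z =
        ((deriv η (s * P z / ε) * (s / ε) : ℝ) : ℂ) * (u z * dbar (fun z => (P z : ℂ)) z) := by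
      intro z hz
      have h1 : (fun w => ((χ w : ℝ) : ℂ)) =ᶠ[𝓝 z] fun w => ((η (s / ε * P w) : ℝ) : ℂ) := by
        filter_upwards [hTo.mem_nhds hz] with w hw
        rw [hTχ w hw]
        congr 2
        ring
      have h2 : HasDerivAt (fun t => η (s / ε * t)) (deriv η (s * P z / ε) * (s / ε)) (P z) := by
        have h3 : HasDerivAt (fun t : ℝ => s / ε * t) (s / ε) (P z) := by
          simpa using (hasDerivAt_id (P z)).const_mul (s / ε)
        have h4 : HasDerivAt η (deriv η (s * P z / ε)) (s / ε * P z) := by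
          have : s / ε * P z = s * P z / ε := by ring
          rw [this]
          exact ((hη.differentiable (by norm_num)) _).hasDerivAt
        exact h4.comp (P z) h3
      rw [dbar_congr h1, dbar_comp_real (η := fun t => η (s / ε * t)) (Q := P) h2
        ((hP.differentiable (by norm_num)) z)]
      ring
    set f : ℂ → ℝ := fun z => s * (u z * dbar (fun w => ((χ w : ℝ) : ℂ)) z).re with hf
    have hss : s * s = 1 := by rcases hs with h | h <;> rw [h] <;> norm_num
    have hfT : ∀ z ∈ T, f z = deriv η (s * P z / ε) / ε *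
        (u z * dbar (fun z => (P z : ℂ)) z).re := by
      intro z hz
      simp only [hf]
      rw [hk z hz, Complex.re_ofReal_mul]
      have : s * (deriv η (s * P z / ε) * (s / ε) * (u z * dbar (fun z => (P z : ℂ)) z).re) =
        (s * s) * (deriv η (s * P z / ε) / ε * (u z * dbar (fun z => (P z : ℂ)) z).re) := by ring
      rw [this, hss, one_mul]
    have hfc : Continuous f := continuous_const.mul (Complex.continuous_re.comp hkc)
    have hfs : HasCompactSupport f := by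
      refine HasCompactSupport.intro hKc ?_
      intro z hz
      simp only [hf]
      rw [k_zero hlocχ (fun h => hz (hTK h))]; simp
    have hf0 : 0 ≤ f := by
      intro z
      by_cases hz : z ∈ T
      · rw [hfT z hz]
        have h1 : 1 / 2 < (u z * dbar (fun z => (P z : ℂ)) z).re := (hKN (hTK hz)).2
        have h2 := hηd (s * P z / ε)
        simp only [Pi.zero_apply]
        exact mul_nonneg (div_nonneg h2 hε.le) (by linarith)
      · simp only [hf, Pi.zero_apply]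
        rw [k_zero hlocχ hz]; simp
    obtain ⟨z0, hz0⟩ : ∃ z0, f z0 ≠ 0 := by
      obtain ⟨ζ, hζ⟩ := hΓne
      have h1 : ζ ∈ closure Ω := by rw [hcl]; exact Or.inr hζ
      have h2 : T ∩ {z | |P z| < ε} ∈ 𝓝 ζ := by
        refine inter_mem (hTo.mem_nhds (hΓT hζ)) ?_
        have h3 : ContinuousAt (fun z => |P z|) ζ := hP.continuous.abs.continuousAt
        apply h3.eventually_lt_const
        show |P ζ| < ε
        rw [hPΓ ζ hζ]; simpa using hε
      obtain ⟨z, ⟨hzT, hzP⟩, hzΩ⟩ := mem_closure_iff_nhds.1 h1 _ h2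
      refine ⟨z, ?_⟩
      have h3 : P z ≠ 0 := fun h => disjoint_left.1 hdis hzΩ ((hTP z hzT).1 h)
      have h4 : ¬ s * P z < 0 := fun h => (hTP z hzT).2.2 h (subset_closure hzΩ)
      have h5 : 0 < s * P z := by
        rcases lt_trichotomy (s * P z) 0 with h | h | h
        · exact absurd h h4
        · rcases mul_eq_zero.1 h with h' | h'
          · rw [h'] at hss; norm_num at hss
          · exact absurd h' h3
        · exact h
      have h6 : |s * P z| = |P z| := by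
        rcases hs with h | h <;> rw [h] <;> simp
      have h7 : s * P z < ε := by
        have : |P z| < ε := hzP
        rw [← h6, abs_of_pos h5] at this
        exact this
      have h8 := hηp (s * P z / ε) (div_pos h5 hε) (by rw [div_lt_one hε]; exact h7)
      have h9 : 1 / 2 < (u z * dbar (fun z => (P z : ℂ)) z).re := (hKN (hTK hzT)).2
      rw [hfT z hzT]
      exact (mul_pos (div_pos h8 hε) (by linarith)).ne'
    have hpos := hfc.integral_pos_of_hasCompactSupport_nonneg_nonzero (μ := volume) hfs hf0 hz0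
    have h1 : ∫ z, f z = s * (∫ z, u z * dbar (fun w => ((χ w : ℝ) : ℂ)) z).re := by
      simp only [hf]
      rw [integral_const_mul]
      congr 1
      exact integral_re hki
    rw [h1, h0] at hpos
    simp at hpos

end Pool.Agent.Helper64.CO
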